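import Pool.Agent.Run7.h412.FC.Gen
import Pool.Agent.Y638.RF.NetZT

set_option autoImplicit false

/-! # Exact triangle and circuits over finite fields -/

namespace Pool.Agent.Run7.h412.FC.ZT

open Finset Pool.Agent.TH697.Form Pool.Agent.TH697.Row
open Pool.Agent.Y638.RF.ZT
open Pool.Agent.N452.FF

variable {n c w d e : ℕ}

/-- the arithmetic -/
theorem arith {n c w l X s : ℝ} (hn : 100 ≤ n) (hc : 1 ≤ c) (hw : 1 ≤ w) (hl : 6 ≤ l)
    (hX : 0 ≤ X) (hs : 0 ≤ s)
    (h : n ^ 2 * (49 / 600 * n - 1) ≤ (3 + 5 * ((3 + 1) * l) + 6 * X + 2 * (w - 1) * (c * l)) * s) :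
    n ^ 3 ≤ 330 * (w * c * l + X) * s := by
  have h1 : n / 14.3 ≤ 49 / 600 * n - 1 := by
    rw [div_le_iff₀ (by norm_num)]
    linarith
  have h2 : n ^ 2 * (n / 14.3) ≤ n ^ 2 * (49 / 600 * n - 1) :=
    mul_le_mul_of_nonneg_left h1 (by positivity)
  have h3 : 3 + 5 * ((3 + 1) * l) + 6 * X + 2 * (w - 1) * (c * l) ≤ 23 * (w * c * l + X) := by
    have h5 : l ≤ c * l := by nlinarith
    have h6 : c * l ≤ w * (c * l) := by nlinarith
    have e1 : w * c * l = w * (c * l) := by ring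
    rw [e1]
    nlinarith
  have h4 := mul_le_mul_of_nonneg_right h3 hs
  have e2 : n ^ 2 * (n / 14.3) = n ^ 3 / 14.3 := by ring
  rw [e2] at h2
  have h5 := h2.trans (h.trans h4)
  rw [div_le_iff₀ (by norm_num)] at h5
  have h6 : 0 ≤ (w * c * l + X) * s := by positivity
  nlinarith

theorem bound {K : Type} [Field K] [Fintype K] [DecidableEq K]
    (hn : 100 ≤ n) (hc : 1 ≤ c) (hw : 1 ≤ w) (he : 1 ≤ e)
    {Ω : Type} [Fintype Ω] (μ : Ω → ℝ) (hμ : IsProb μ) (s : ℕ)
    (C : Ω → Circuit K (Fin 3 × Fin n × Fin n) (fun _ => ℤ) w (n ^ c) d e)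
    (hs : ∀ ω, (C ω).circ.cost (first n) ≤ s)
    (hF : ApproximatesOn μ (fun ω => (C ω).eval) InRange zeroTri) :
    (n : ℝ) ^ 3 ≤ 330 * (w * c * Real.logb 2 n + par K d e) * s := by
  classical
  have hn' : (100 : ℝ) ≤ n := by exact_mod_cast hn
  have hw' : (1 : ℝ) ≤ w := by exact_mod_cast hw
  have hc' : (1 : ℝ) ≤ c := by exact_mod_cast hc
  have hs0 : (0 : ℝ) ≤ s := Nat.cast_nonneg s
  have hX := par_nonneg K d e
  have hl : (6 : ℝ) ≤ Real.logb 2 n := by
    have h11 : ((2 : ℝ)) ^ 6 ≤ n := by linarith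
    have h12 := Real.logb_le_logb_of_le (by norm_num : (1 : ℝ) < 2) (by positivity) h11
    rw [Real.logb_pow, Real.logb_self_eq_one (by norm_num)] at h12
    norm_num at h12
    exact h12
  by_cases hsn : n ^ 3 ≤ s
  · have h1 : (n : ℝ) ^ 3 ≤ s := by exact_mod_cast hsn
    have h2 : (1 : ℝ) ≤ w * c := by nlinarith
    have h3 : (1 : ℝ) ≤ 330 * (w * c * Real.logb 2 n + par K d e) := by nlinarith
    nlinarith
  have h := lower (D := fun _ : Fin 3 × Fin n × Fin n => ℤ) μ hμ s C InRange zeroTri hF he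
    (Nat.one_le_pow _ _ (by omega)) hw n (first n) hs (T := Fin n) asks_first
    ((3 + 1) * Real.logb 2 n) (by
      have := log_two_add (n := n) (s := s) (a := 3) (by omega) (by norm_num) (by omega)
      simpa using this) (n : ℝ) (by rw [Fintype.card_fin])
  rw [card_first, Nat.cast_pow n c, Nat.cast_pow n 2, Real.logb_pow] at h
  exact arith hn' hc' hw' hl hX hs0 h

end Pool.Agent.Run7.h412.FC.ZT
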