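import Pool.Agent.Run7.h412.FC.Gen
import Pool.Agent.Y638.RF.MinPlus
import Pool.Agent.N452.TF.Xor

set_option autoImplicit false

/-! # Shortest paths and circuits over finite fields -/

namespace Pool.Agent.Run7.h412.FC.MinPlus

open Finset Pool.Agent.TH697.Form Pool.Agent.TH697.Row Pool.Agent.TH697.Form.MinPlus
open Pool.Agent.TH457.Ary.MinPlus Pool.Agent.Y638.RF.MinPlus
open Pool.Agent.N452.FF
open Pool.Agent.N452.TF.Xor (pairs)

variable {n c w d e : ℕ}

/-- the arithmetic -/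
theorem arith {n b c w l X s : ℝ} (hn : 16 ≤ n) (hb : 4 ≤ b) (hc : 1 ≤ c) (hw : 1 ≤ w)
    (hl1 : 1 ≤ l) (hl : l ≤ 5 / 4 * b) (hX : 0 ≤ X) (hs : 0 ≤ s)
    (h : n * (49 / 600 * (n ^ 2 * b) - 1) ≤
      (3 + 5 * ((3 + 1) * l) + 6 * X + 2 * (w - 1) * (c * l)) * s) :
    n ^ 3 * l ≤ 400 * (w * c * l + X) * s := by
  have h0 : 256 ≤ n ^ 2 := by nlinarith
  have h01 : 256 * b ≤ n ^ 2 * b := mul_le_mul_of_nonneg_right h0 (by linarith)
  have h00 : n ^ 2 * l ≤ n ^ 2 * (5 / 4 * b) := mul_le_mul_of_nonneg_left hl (by positivity)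
  have h1 : n ^ 2 * l / 16 ≤ 49 / 600 * (n ^ 2 * b) - 1 := by
    rw [div_le_iff₀ (by norm_num)]
    nlinarith
  have h2 : n * (n ^ 2 * l / 16) ≤ n * (49 / 600 * (n ^ 2 * b) - 1) :=
    mul_le_mul_of_nonneg_left h1 (by linarith)
  have h3 : 3 + 5 * ((3 + 1) * l) + 6 * X + 2 * (w - 1) * (c * l) ≤ 23 * (w * c * l + X) := by
    have h5 : l ≤ c * l := by nlinarith
    have h6 : c * l ≤ w * (c * l) := by nlinarith
    have e1 : w * c * l = w * (c * l) := by ring
    rw [e1]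
    nlinarith
  have h4 := mul_le_mul_of_nonneg_right h3 hs
  have e2 : n * (n ^ 2 * l / 16) = n ^ 3 * l / 16 := by ring
  rw [e2] at h2
  have h5 := h2.trans (h.trans h4)
  have h6 : 0 ≤ (w * c * l + X) * s := by positivity
  nlinarith

theorem bound {K : Type} [Field K] [Fintype K] [DecidableEq K]
    (hn : 16 ≤ n) (hc : 1 ≤ c) (hw : 1 ≤ w) (he : 1 ≤ e)
    {Ω : Type} [Fintype Ω] (μ : Ω → ℝ) (hμ : IsProb μ) (s : ℕ)
    (C : Ω → Circuit K (Option (Fin n)) (Item n) w (n ^ c) d e)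
    (hs : ∀ ω, (C ω).circ.cost (pairs n) ≤ s)
    (hF : ApproximatesOn μ (fun ω => (C ω).eval) (InRange n (n + 1)) (shortcut n)) :
    (n : ℝ) ^ 3 * Real.logb 2 n ≤ 400 * (w * c * Real.logb 2 n + par K d e) * s := by
  classical
  have hw' : (1 : ℝ) ≤ w := by exact_mod_cast hw
  have hc' : (1 : ℝ) ≤ c := by exact_mod_cast hc
  have hn' : (16 : ℝ) ≤ n := by exact_mod_cast hn
  have hs0 : (0 : ℝ) ≤ s := Nat.cast_nonneg s
  have hX := par_nonneg K d e
  have hl1 : 1 ≤ Real.logb 2 (n : ℝ) := by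
    rw [Real.le_logb_iff_rpow_le (by norm_num) (by linarith), Real.rpow_one]
    linarith
  by_cases hsn : n ^ 3 ≤ s
  · have h1 : (n : ℝ) ^ 3 ≤ s := by exact_mod_cast hsn
    have h2 : (1 : ℝ) ≤ w * c := by nlinarith
    have h3 : Real.logb 2 (n : ℝ) ≤ w * c * Real.logb 2 n + par K d e := by nlinarith
    have h4 : (n : ℝ) ^ 3 * Real.logb 2 n ≤ s * Real.logb 2 n :=
      mul_le_mul_of_nonneg_right h1 (by linarith)
    have h5 : s * Real.logb 2 n ≤ s * (w * c * Real.logb 2 n + par K d e) :=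
      mul_le_mul_of_nonneg_left h3 hs0
    have h6 : 0 ≤ s * (w * c * Real.logb 2 n + par K d e) :=
      mul_nonneg hs0 (by linarith)
    linarith
  obtain ⟨b, hb⟩ : ∃ b, b = Nat.log 2 n := ⟨_, rfl⟩
  have hb4 : 4 ≤ b := by
    have := Nat.log_mono_right (b := 2) hn
    rw [hb]
    rwa [show Nat.log 2 16 = 4 by decide +kernel] at this
  have hpow : 2 ^ b ≤ n := by
    rw [hb]
    exact Nat.pow_log_le_self 2 (by omega)
  have hpow2 : n < 2 ^ (b + 1) := by
    have := Nat.lt_pow_succ_log_self (b := 2) (by norm_num) n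
    rw [hb]
    exact this
  have h := lower μ hμ s C (InRange n (2 ^ b + 1)) (shortcut n)
    (approx_mono μ _ _ _ _ (fun x hx => inRange_mono (by omega) x hx) hF) he
    (Nat.one_le_pow _ _ (by omega)) hw (n ^ 3) (pairs n) hs
    (T := Fin n × Fin n × Fin b) (by
      intro a ha
      unfold pairs at ha
      rw [mem_map] at ha
      obtain ⟨i, -, rfl⟩ := ha
      exact asks hpow i)
    ((3 + 1) * Real.logb 2 n) (by
      have := log_two_add (n := n) (s := s) (a := 3) (by omega) (by norm_num) (by omega)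
      simpa using this) ((n : ℝ) ^ 2 * b) (by rw [card_T])
  unfold pairs at h
  rw [card_map, card_univ, Fintype.card_fin, Nat.cast_pow n c, Real.logb_pow] at h
  refine arith hn' (by exact_mod_cast hb4) hc' hw' hl1 ?_ hX hs0 h
  have h9 := logb_q (c := 1) (by omega) hb4 hpow2
  simpa using h9

end Pool.Agent.Run7.h412.FC.MinPlus
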