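import Pool.Agent.Run7.h412.FC.Gen
import Pool.Agent.Y638.RF.NetTri

set_option autoImplicit false

/-! # Triangles and circuits over finite fields -/

namespace Pool.Agent.Run7.h412.FC.Tri

open Finset Pool.Agent.TH697.Form Pool.Agent.TH697.Row
open Pool.Agent.TH457.Ary.Tri
open Pool.Agent.TH457.Ary.Sat (exists_k logb_four_pow)
open Pool.Agent.Y638.RF Pool.Agent.Y638.RF.Tri
open Pool.Agent.N452.FF

variable {m c w d e : ℕ}

/-- the arithmetic -/
theorem arith {m k c w l X s : ℝ} (hm : 1000 ≤ m) (hk : 4 ≤ k) (hc : 1 ≤ c) (hw : 1 ≤ w)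
    (hl1 : 1 ≤ l) (hl : l ≤ 5 / 2 * k) (hX : 0 ≤ X) (hs : 0 ≤ s)
    (h : m * (49 / 600 * (m * k * (1 / 2)) - 1) ≤
      (3 + 5 * ((2 + 1) * l) + 6 * X + 2 * (w - 1) * (c * l)) * s) :
    m ^ 2 * l ≤ 1200 * (w * c * l + X) * s := by
  have h0 : 1000 * k ≤ m * k := mul_le_mul_of_nonneg_right hm (by linarith)
  have h00 : m * l ≤ m * (5 / 2 * k) := mul_le_mul_of_nonneg_left hl (by linarith)
  have h1 : m * l / 62.5 ≤ 49 / 600 * (m * k * (1 / 2)) - 1 := by
    rw [div_le_iff₀ (by norm_num)]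
    nlinarith
  have h2 : m * (m * l / 62.5) ≤ m * (49 / 600 * (m * k * (1 / 2)) - 1) :=
    mul_le_mul_of_nonneg_left h1 (by linarith)
  have h3 : 3 + 5 * ((2 + 1) * l) + 6 * X + 2 * (w - 1) * (c * l) ≤ 18 * (w * c * l + X) := by
    have h5 : l ≤ c * l := by nlinarith
    have h6 : c * l ≤ w * (c * l) := by nlinarith
    have e1 : w * c * l = w * (c * l) := by ring
    rw [e1]
    nlinarith
  have h4 := mul_le_mul_of_nonneg_right h3 hs
  have e2 : m * (m * l / 62.5) = m ^ 2 * l / 62.5 := by ring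
  rw [e2] at h2
  have h5 := h2.trans (h.trans h4)
  rw [div_le_iff₀ (by norm_num)] at h5
  have h6 : 0 ≤ (w * c * l + X) * s := by positivity
  nlinarith

theorem bound {K : Type} [Field K] [Fintype K] [DecidableEq K]
    (hm : 1000 ≤ m) (hc : 1 ≤ c) (hw : 1 ≤ w) (he : 1 ≤ e)
    {Ω : Type} [Fintype Ω] (μ : Ω → ℝ) (hμ : IsProb μ) (s : ℕ)
    (C : Ω → Circuit K (Fin m) (fun _ => Edge (2 * m)) w (m ^ c) d e)
    (hs : ∀ ω, (C ω).circ.cost univ ≤ s)
    (hF : ApproximatesOn μ (fun ω => (C ω).eval) Simple triangle) :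
    (m : ℝ) ^ 2 * Real.logb 2 m ≤ 1200 * (w * c * Real.logb 2 m + par K d e) * s := by
  classical
  have hw' : (1 : ℝ) ≤ w := by exact_mod_cast hw
  have hc' : (1 : ℝ) ≤ c := by exact_mod_cast hc
  have hm' : (1000 : ℝ) ≤ m := by exact_mod_cast hm
  have hs0 : (0 : ℝ) ≤ s := Nat.cast_nonneg s
  have hX := par_nonneg K d e
  have hl1 : 1 ≤ Real.logb 2 (m : ℝ) := by
    rw [Real.le_logb_iff_rpow_le (by norm_num) (by linarith), Real.rpow_one]
    linarith
  by_cases hsm : m ^ 2 ≤ s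
  · have h1 : (m : ℝ) ^ 2 ≤ s := by exact_mod_cast hsm
    have h2 : (1 : ℝ) ≤ w * c := by nlinarith
    have h3 : Real.logb 2 (m : ℝ) ≤ w * c * Real.logb 2 m + par K d e := by nlinarith
    have h4 : (m : ℝ) ^ 2 * Real.logb 2 m ≤ s * Real.logb 2 m :=
      mul_le_mul_of_nonneg_right h1 (by linarith)
    have h5 : s * Real.logb 2 m ≤ s * (w * c * Real.logb 2 m + par K d e) :=
      mul_le_mul_of_nonneg_left h3 hs0
    have h6 : 0 ≤ s * (w * c * Real.logb 2 m + par K d e) :=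
      mul_nonneg hs0 (by linarith)
    linarith
  obtain ⟨k, hk, hk1, hk2⟩ := exists_k (m := m) (by omega)
  have h := lower (D := fun _ : Fin m => Edge (2 * m)) μ hμ s C Simple triangle hF he
    (Nat.one_le_pow _ _ (by omega)) hw (4 * m ^ 2) univ hs
    (T := Fin (M m k) × Fin k) (fun p _ => asks (by omega) hk1 p)
    ((2 + 1) * Real.logb 2 m) (by
      have := log_two_add (n := m) (s := s) (a := 2) (by omega) (by norm_num) (by omega)
      simpa using this) ((m : ℝ) * k * (1 / 2)) (by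
      have := card_T (m := m) (k := k) (by omega) hk1
      linarith)
  rw [card_univ (α := Fin m), Fintype.card_fin, Nat.cast_pow m c, Real.logb_pow] at h
  exact arith hm' (by exact_mod_cast hk) hc' hw' hl1 (logb_m hk (by omega) hk2) hX hs0 h

end Pool.Agent.Run7.h412.FC.Tri
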