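import Pool.Agent.N452.FF.Lower

set_option autoImplicit false

/-! # The lower bound for circuits over finite fields in closed form -/

namespace Pool.Agent.Run7.h412.FC

open Finset Pool.Agent.TH697.Form Pool.Agent.TH697.Row Pool.Agent.Y638.RF
open Pool.Agent.N452.FF

variable {K : Type} [Field K] [Fintype K] [DecidableEq K] {ι : Type} {D : ι → Type}
  [DecidableEq ι] {w q d e : ℕ}

variable {T : Type} [Fintype T] {Ω : Type} [Fintype Ω]

/-- the number of parameters of a gate, in bits -/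
noncomputable def par (K : Type) [Fintype K] (d e : ℕ) : ℝ :=
  d * (d + (Fintype.card K : ℝ) ^ e) * Real.logb 2 (Fintype.card K)

theorem par_nonneg (K : Type) [Field K] [Fintype K] (d e : ℕ) : 0 ≤ par K d e := by
  have hk1 : 2 ≤ Fintype.card K := Fintype.one_lt_card
  have hk' : (2 : ℝ) ≤ Fintype.card K := by exact_mod_cast hk1
  have hlk : 0 ≤ Real.logb 2 (Fintype.card K : ℝ) :=
    Real.logb_nonneg (by norm_num) (by linarith)
  unfold par
  positivity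

theorem lower (μ : Ω → ℝ) (hμ : IsProb μ) (s : ℕ) (C : Ω → Circuit K ι D w q d e)
    (P : (∀ i, D i) → Prop) (f : (∀ i, D i) → Bool)
    (hF : ApproximatesOn μ (fun ω => (C ω).eval) P f)
    (he : 1 ≤ e) (hq : 1 ≤ q) (hw : 1 ≤ w) (N : ℕ)
    (I : Finset ι) (hs : ∀ ω, (C ω).circ.cost I ≤ s) (h : ∀ i ∈ I, Asks T N 0 P f i)
    (l : ℝ) (hl : Real.logb 2 (2 + s : ℕ) ≤ l) (N' : ℝ) (hN : N' ≤ Fintype.card T) :
    (I.card : ℝ) * (49 / 600 * N' - 1) ≤
      (3 + 5 * l + 6 * par K d e + 2 * (w - 1) * Real.logb 2 q) * s := by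
  have hk1 : 2 ≤ Fintype.card K := Fintype.one_lt_card
  obtain ⟨k, hk⟩ : ∃ k, k = Fintype.card K := ⟨_, rfl⟩
  have hX0 := par_nonneg K d e
  have h0 := circuit_lower μ hμ s C P f hF he hq hw N 0 I hs h
  unfold par at hX0 ⊢
  rw [← hk] at hk1 h0 hX0 ⊢
  have hk' : (2 : ℝ) ≤ k := by exact_mod_cast hk1
  have hlk : 0 ≤ Real.logb 2 (k : ℝ) := Real.logb_nonneg (by norm_num) (by linarith)
  have hd0 : (0 : ℝ) ≤ d := Nat.cast_nonneg d
  have hs0 : (0 : ℝ) ≤ s := Nat.cast_nonneg s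
  have hke : (2 : ℝ) ≤ (k : ℝ) ^ e := by
    calc (2 : ℝ) ≤ k := hk'
      _ = (k : ℝ) ^ 1 := (pow_one _).symm
      _ ≤ (k : ℝ) ^ e := pow_le_pow_right₀ (by linarith) he
  have hee : (e : ℝ) ≤ (k : ℝ) ^ e := by
    have h1 : e < 2 ^ e := Nat.lt_two_pow_self
    have h2 : 2 ^ e ≤ k ^ e := Nat.pow_le_pow_left hk1 e
    exact_mod_cast (h1.le.trans h2)
  have hXX : 2 * ((d : ℝ) * (d + k ^ e + e + 2)) * Real.logb 2 k ≤
      6 * (d * (d + (k : ℝ) ^ e) * Real.logb 2 k) := by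
    have h7 : (d : ℝ) * (d + k ^ e + e + 2) ≤ d * (3 * (d + (k : ℝ) ^ e)) :=
      mul_le_mul_of_nonneg_left (by linarith) hd0
    have h8 := mul_le_mul_of_nonneg_right h7 hlk
    calc 2 * ((d : ℝ) * (d + k ^ e + e + 2)) * Real.logb 2 k
        = 2 * ((d : ℝ) * (d + k ^ e + e + 2) * Real.logb 2 k) := by ring
      _ ≤ 2 * (d * (3 * (d + (k : ℝ) ^ e)) * Real.logb 2 k) := by linarith
      _ = 6 * (d * (d + (k : ℝ) ^ e) * Real.logb 2 k) := by ring
  have h1 : (I.card : ℝ) * (49 / 600 * N' - 1) ≤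
      (I.card : ℝ) * ((49 / 600 - 0) * Fintype.card T - 1) :=
    mul_le_mul_of_nonneg_left (by linarith) (Nat.cast_nonneg _)
  refine h1.trans (h0.trans ?_)
  apply mul_le_mul_of_nonneg_right _ hs0
  linarith

theorem log_two_add {n s a : ℕ} (hn : 2 ≤ n) (ha : 1 ≤ a) (hs : s < n ^ a) :
    Real.logb 2 ((2 + s : ℕ) : ℝ) ≤ (a + 1) * Real.logb 2 n := by
  have h1 : 2 + s ≤ n ^ (a + 1) := by
    have h2 : 2 ≤ n ^ a := le_trans hn (Nat.le_self_pow (by omega) n)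
    have h3 : n ^ (a + 1) = n ^ a * n := pow_succ _ _
    rw [h3]
    nlinarith
  have h2 : ((2 + s : ℕ) : ℝ) ≤ (n : ℝ) ^ (a + 1) := by exact_mod_cast h1
  have h3 := Real.logb_le_logb_of_le (by norm_num : (1 : ℝ) < 2) (by positivity) h2
  rw [Real.logb_pow] at h3
  push_cast at h3 ⊢
  exact h3

end Pool.Agent.Run7.h412.FC
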